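import Pool.Agent.H500.ME.Stm
import Pool.Graph.R_seed8.H921R2.TatePole.Dedekind

set_option autoImplicit false
set_option linter.unusedSectionVars false

/-! Project ME (helper500), part A7: closure properties of mean values (helper263). -/

namespace Pool.Agent.H263.ME.MVB

open NumberField IsDedekindDomain Filter Topology
open Pool.Agent.H500.ME (pl MVn MVe MV S_MVB)

variable {K : Type} [Field K] [NumberField K]

/-- the weights -/
noncomputable def wt (s : ℝ) (v : HeightOneSpectrum (𝓞 K)) : ℂ :=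
  (((Ideal.absNorm v.asIdeal : ℝ) ^ (-s) : ℝ) : ℂ)

theorem norm_pos (v : HeightOneSpectrum (𝓞 K)) : (0 : ℝ) < Ideal.absNorm v.asIdeal := by
  have h0 : Ideal.absNorm v.asIdeal ≠ 0 := by
    rw [Ne, Ideal.absNorm_eq_zero_iff]
    exact v.ne_bot
  exact_mod_cast Nat.pos_of_ne_zero h0

theorem summ {F : HeightOneSpectrum (𝓞 K) → ℂ} (hF : ∃ B : ℝ, ∀ v, ‖F v‖ ≤ B) {s : ℝ}
    (hs : 1 < s) : Summable fun v : HeightOneSpectrum (𝓞 K) => F v * wt s v := by
  obtain ⟨B, hB⟩ := hF
  have h1 := (Pool.Agent.H921R2.TatePole.nm_summable (K := K) hs).mul_left B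
  refine Summable.of_norm_bounded h1 fun v => ?_
  unfold wt
  rw [norm_mul, Complex.norm_real, Real.norm_of_nonneg (Real.rpow_nonneg (norm_pos v).le _)]
  exact mul_le_mul_of_nonneg_right (hB v) (Real.rpow_nonneg (norm_pos v).le _)

theorem mv_add {F G : HeightOneSpectrum (𝓞 K) → ℂ} {r s : ℂ} (hF : MV F r) (hG : MV G s) :
    MV (fun v => F v + G v) (r + s) := by
  refine ⟨?_, ?_, ?_⟩
  · obtain ⟨B, hB⟩ := hF.bdd
    obtain ⟨B', hB'⟩ := hG.bdd
    exact ⟨B + B', fun v => (norm_add_le _ _).trans (add_le_add (hB v) (hB' v))⟩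
  · have h1 := Tendsto.add hF.nat hG.nat
    refine h1.congr fun x => ?_
    rw [Finset.sum_add_distrib, add_div]
  · obtain ⟨c, hc⟩ := hF.edge
    obtain ⟨c', hc'⟩ := hG.edge
    refine ⟨c + c', (hc.add hc').congr' ?_⟩
    filter_upwards [self_mem_nhdsWithin] with t ht
    have h1 := (summ hF.bdd ht).tsum_add (summ hG.bdd ht)
    unfold wt at h1
    have h2 : (∑' v : HeightOneSpectrum (𝓞 K), (F v + G v) *
        (((Ideal.absNorm v.asIdeal : ℝ) ^ (-t) : ℝ) : ℂ)) =
        ∑' v : HeightOneSpectrum (𝓞 K), (F v * (((Ideal.absNorm v.asIdeal : ℝ) ^ (-t) : ℝ) : ℂ) +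
          G v * (((Ideal.absNorm v.asIdeal : ℝ) ^ (-t) : ℝ) : ℂ)) :=
      tsum_congr fun v => add_mul _ _ _
    rw [h2, h1]
    ring

theorem mv_mul {F : HeightOneSpectrum (𝓞 K) → ℂ} {r : ℂ} (c : ℂ) (hF : MV F r) :
    MV (fun v => c * F v) (c * r) := by
  refine ⟨?_, ?_, ?_⟩
  · obtain ⟨B, hB⟩ := hF.bdd
    refine ⟨‖c‖ * B, fun v => ?_⟩
    rw [norm_mul]
    exact mul_le_mul_of_nonneg_left (hB v) (norm_nonneg c)
  · have h1 := Tendsto.const_mul c hF.nat
    refine h1.congr fun x => ?_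
    rw [← Finset.mul_sum, mul_div_assoc]
  · obtain ⟨d, hd⟩ := hF.edge
    refine ⟨c * d, (hd.const_mul c).congr fun t => ?_⟩
    have h2 : (∑' v : HeightOneSpectrum (𝓞 K), c * F v *
        (((Ideal.absNorm v.asIdeal : ℝ) ^ (-t) : ℝ) : ℂ)) =
        c * ∑' v : HeightOneSpectrum (𝓞 K), F v *
          (((Ideal.absNorm v.asIdeal : ℝ) ^ (-t) : ℝ) : ℂ) := by
      rw [← tsum_mul_left]
      exact tsum_congr fun v => mul_assoc _ _ _
    rw [h2]
    ring

/-- functions with finite support -/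
theorem mv_fin {D : HeightOneSpectrum (𝓞 K) → ℂ} (S : Finset (HeightOneSpectrum (𝓞 K)))
    (hD : ∀ v ∉ S, D v = 0) : MV D 0 := by
  have hS : Summable fun v => ‖D v‖ :=
    summable_of_ne_finset_zero (s := S) fun v hv => by rw [hD v hv, norm_zero]
  refine ⟨⟨∑' v, ‖D v‖, fun v => hS.le_tsum v fun w _ => norm_nonneg _⟩, ?_, ?_⟩
  · have h1 := Pool.Agent.W352.ChAbs.const_div_pi (∑' v, ‖D v‖)
    unfold MVn
    rw [tendsto_zero_iff_norm_tendsto_zero]
    refine squeeze_zero (fun x => norm_nonneg _) (fun x => ?_) h1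
    rw [norm_div, Complex.norm_natCast]
    refine div_le_div_of_nonneg_right ?_ (Nat.cast_nonneg _)
    exact (norm_sum_le _ _).trans (hS.sum_le_tsum _ fun v _ => norm_nonneg _)
  · refine ⟨∑ v ∈ S, D v * wt 1 v, ?_⟩
    have h1 : ∀ s : ℝ, (∑' v : HeightOneSpectrum (𝓞 K),
        D v * (((Ideal.absNorm v.asIdeal : ℝ) ^ (-s) : ℝ) : ℂ)) + 0 * ((Real.log (s - 1) : ℝ) : ℂ) =
        ∑ v ∈ S, D v * wt s v := by
      intro s
      rw [zero_mul, add_zero]
      exact tsum_eq_sum fun v hv => by rw [hD v hv, zero_mul]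
    simp only [h1]
    have h2 : Continuous fun s : ℝ => ∑ v ∈ S, D v * wt s v := by
      refine continuous_finsetSum _ fun v _ => continuous_const.mul ?_
      unfold wt
      exact Complex.continuous_ofReal.comp
        ((Real.continuous_const_rpow (norm_pos v).ne').comp continuous_neg)
    exact (h2.tendsto 1).mono_left nhdsWithin_le_nhds

theorem mv_cof {F G : HeightOneSpectrum (𝓞 K) → ℂ} {r : ℂ} (hF : MV F r)
    (h : ∀ᶠ v : HeightOneSpectrum (𝓞 K) in cofinite, F v = G v) : MV G r := by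
  rw [eventually_cofinite] at h
  have h1 : MV (fun v => G v - F v) 0 := by
    refine mv_fin h.toFinset fun v hv => ?_
    rw [Set.Finite.mem_toFinset, Set.mem_ofPred_eq, not_not] at hv
    rw [hv, sub_self]
  have h2 := mv_add hF h1
  have h3 : (fun v => F v + (G v - F v)) = G := by
    funext v
    ring
  rw [h3, add_zero] at h2
  exact h2

theorem mv_sum (m : ℕ) : ∀ (F : Fin m → HeightOneSpectrum (𝓞 K) → ℂ) (r : Fin m → ℂ),
    (∀ i, MV (F i) (r i)) → MV (fun v => ∑ i, F i v) (∑ i, r i) := by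
  induction m with
  | zero =>
    intro F r _
    have h1 : MV (fun _ : HeightOneSpectrum (𝓞 K) => (0 : ℂ)) 0 := mv_fin ∅ fun _ _ => rfl
    simpa using h1
  | succ m ih =>
    intro F r h
    have h1 := mv_add (h 0) (ih (fun i => F i.succ) (fun i => r i.succ) fun i => h i.succ)
    rw [Fin.sum_univ_succ]
    have h2 : (fun v => ∑ i, F i v) = fun v => F 0 v + ∑ i : Fin m, F i.succ v := by
      funext v
      rw [Fin.sum_univ_succ]
    rw [h2]
    exact h1

/-- PART A7 -/
theorem main : Pool.Agent.H500.ME.S_MVB := by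
  intro K _ _
  exact ⟨fun F G r s hF hG => mv_add hF hG, fun F r c hF => mv_mul c hF,
    fun m F r h => mv_sum m F r h, fun F G r hF h => mv_cof hF h⟩

end Pool.Agent.H263.ME.MVB
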